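import Pool.Agent.Work.MP_db9399_labe_helper61.LabE

/-!
# MP_db9399, LAB with several labels, exact cardinalities and refined tests (helper61)

`labME`: as `labM`, moreover the number of items with the label `j` on the side `i` is exact if the
undecided items of the side have a common distribution and the fractional numbers are integers, and
the part of a test form which on every side is a combination of the functionals pays only the last
roundings.
-/

set_option autoImplicit false

namespace Pool.Agent.Work.MP_db9399_lab.helper61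

open Finset Classical

universe u

variable {V ι κ : Type u} [Fintype V] [Fintype ι] [Fintype κ]

/-- the side `i` has one distribution `π` besides decided items -/
def Uni (side : V → ι) (g : ℕ) (p : V → ℕ → ℝ) (i : ι) (π : ℕ → ℝ) : Prop :=
  ∀ v, side v = i → (∃ j, j < g ∧ p v j = 1) ∨ ∀ j, j < g → p v j = π j

/-- one step: split the rest -/
theorem stepE {m g : ℕ} (side : V → ι) (w : Fin m → V → ℝ) (W : Fin m → ι → ℝ)
    (hW0 : ∀ k i, 0 ≤ W k i) (hW : ∀ k v, |w k v| ≤ W k (side v)) (p : V → ℕ → ℝ)
    (hp : ∀ v j, 0 ≤ p v j) (hp1 : ∀ v, ∑ j ∈ range g, p v j = 1) (a : κ → V → ℝ)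
    (e : κ → Fin m → ι → ℝ) (Sp Mu Λ : ℝ) (hSp0 : 0 ≤ Sp) (hMu0 : 0 ≤ Mu)
    (hSp : ∀ q, ((univ.filter fun v => a q v ≠ 0).card : ℝ) ≤ Sp)
    (hSc : ∀ q, ((univ.filter fun i => ∃ k, e q k i ≠ 0).card : ℝ) ≤ Sp)
    (hMu : ∀ v, ((univ.filter fun q => a q v ≠ 0).card : ℝ) ≤ Mu)
    (hMc : ∀ i, ((univ.filter fun q => ∃ k, e q k i ≠ 0).card : ℝ) ≤ Mu) (hΛ : 0 ≤ Λ)
    (hL : 32 * Real.exp (-Λ) * ((m * g + 2) * Sp + 1) * (4 * (m * g + 1) * (g * Mu) + 1) ≤ 1)
    (J : ℕ)
    (hJ : ∀ i, (univ.filter fun v => side v = i).card < 2 ^ J) (l : ℕ) (hl : l < g) (L : V → ℕ)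
    (hLl : ∀ v, L v ≤ l) (hLr : ∀ v, L v = l → 0 < rem g p l v) :
    ∃ L' : V → ℕ, (∀ v, L' v ≤ l + 1) ∧ (∀ v, L' v = l + 1 → 0 < rem g p (l + 1) v) ∧
      (∀ v, L' v = l → 0 < p v l) ∧ (∀ v, L v ≠ l → L' v = L v) ∧ (∀ v, L v = l → l ≤ L' v) ∧
      (∀ i k j, j < g → |∑ v ∈ univ.filter (fun v => side v = i),
        (co g p L' (l + 1) j v - co g p L l j v) * w k v| ≤ (m * g + 2) * W k i) ∧
      (∀ i π, Uni side g p i π → (∃ r : ℤ, ∑ v ∈ univ.filter (fun v => side v = i),
        co g p L l l v = r) → ∀ j, j < g → ∑ v ∈ univ.filter (fun v => side v = i),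
        (co g p L' (l + 1) j v - co g p L l j v) = 0) ∧
      ∀ q j, j < g → |∑ v, (a q v + sc side w (e q) v) *
        (co g p L' (l + 1) j v - co g p L l j v)| ≤
        (J + 2) * (Real.sqrt (32 * (m * g + 1) * Λ) + 1) * Real.sqrt (∑ v, a q v ^ 2) +
        2 * (m * g + 1) * (Real.sqrt (32 * Λ) + 1) * Real.sqrt (∑ i, sw W (e q) i ^ 2) := by
  set ξ : V → ℝ := fun v => if L v = l then 2 * (p v l / rem g p l v) - 1 else 1 with hξd
  have hr0 := fun v => rem_nonneg (g := g) hp l v
  have hq0 : ∀ v, 0 ≤ p v l / rem g p l v := fun v => div_nonneg (hp v l) (hr0 v)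
  have hq1 : ∀ v, p v l / rem g p l v ≤ 1 := fun v =>
    div_le_one_of_le₀ (le_rem hp le_rfl hl v) (hr0 v)
  have hξ : ∀ v, |ξ v| ≤ 1 := by
    intro v
    rw [hξd]
    show |if L v = l then 2 * (p v l / rem g p l v) - 1 else 1| ≤ 1
    split_ifs
    · exact abs_le.2 ⟨by linarith [hq0 v], by linarith [hq1 v]⟩
    · norm_num
  -- functionals and tests
  set c : ℕ → V → ℝ := fun j v => ind L l v * cf g p l j v with hc
  have hc1 : ∀ j, j < g → ∀ v, |c j v| ≤ 1 := by
    intro j hj v
    rw [hc]
    show |ind L l v * cf g p l j v| ≤ 1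
    rw [abs_mul]
    have h1 : |ind L l v| ≤ 1 := by
      unfold ind
      split_ifs <;> norm_num
    calc |ind L l v| * |cf g p l j v| ≤ 1 * 1 :=
          mul_le_mul h1 (cf_abs hp l j hj v) (abs_nonneg _) zero_le_one
      _ = 1 := one_mul 1
  set w' : Fin (m * g) → V → ℝ := fun x v =>
    w (finProdFinEquiv.symm x).1 v * c ((finProdFinEquiv.symm x).2 : ℕ) v with hw'
  set W' : Fin (m * g) → ι → ℝ := fun x i => W (finProdFinEquiv.symm x).1 i with hW'
  set a' : κ × ULift.{u} (Fin g) → V → ℝ := fun x v => a x.1 v * c (x.2.down : ℕ) v with ha'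
  set e' : κ × ULift.{u} (Fin g) → Fin (m * g) → ι → ℝ := fun x k i =>
    if (finProdFinEquiv.symm k).2 = x.2.down then e x.1 (finProdFinEquiv.symm k).1 i else 0 with he'
  have he'ne : ∀ x i, (∃ k, e' x k i ≠ 0) → ∃ k, e x.1 k i ≠ 0 := by
    rintro x i ⟨k, hk⟩
    refine ⟨(finProdFinEquiv.symm k).1, fun h => hk ?_⟩
    show (if (finProdFinEquiv.symm k).2 = x.2.down then e x.1 (finProdFinEquiv.symm k).1 i else 0) = 0
    rw [h, ite_self]
  have hsum' : ∀ (x : κ × ULift.{u} (Fin g)) (F : Fin m → Fin g → ℝ),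
      ∑ k : Fin (m * g), (if (finProdFinEquiv.symm k).2 = x.2.down then
        F (finProdFinEquiv.symm k).1 (finProdFinEquiv.symm k).2 else 0) =
      ∑ k : Fin m, F k x.2.down := by
    intro x F
    rw [Equiv.sum_comp finProdFinEquiv.symm (fun y : Fin m × Fin g =>
      if y.2 = x.2.down then F y.1 y.2 else 0), Fintype.sum_prod_type]
    refine sum_congr rfl fun k _ => ?_
    rw [sum_ite_eq' univ x.2.down, if_pos (mem_univ _)]
  have hsc' : ∀ x v, sc side w' (e' x) v = sc side w (e x.1) v * c (x.2.down : ℕ) v := by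
    intro x v
    rw [sc, sc, sum_mul]
    refine Eq.trans (sum_congr rfl fun k _ => ?_)
      (hsum' x (fun k j => e x.1 k (side v) * w k v * c (j : ℕ) v))
    show (if (finProdFinEquiv.symm k).2 = x.2.down then e x.1 (finProdFinEquiv.symm k).1 (side v)
      else 0) * (w (finProdFinEquiv.symm k).1 v * c ((finProdFinEquiv.symm k).2 : ℕ) v) = _
    split_ifs
    · ring
    · rw [zero_mul]
  have hsw' : ∀ x i, sw W' (e' x) i = sw W (e x.1) i := by
    intro x i
    rw [sw, sw]
    refine Eq.trans (sum_congr rfl fun k _ => ?_) (hsum' x (fun k _ => |e x.1 k i| * W k i))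
    show |(if (finProdFinEquiv.symm k).2 = x.2.down then e x.1 (finProdFinEquiv.symm k).1 i
      else 0)| * W (finProdFinEquiv.symm k).1 i = _
    split_ifs
    · rfl
    · rw [abs_zero, zero_mul]
  obtain ⟨ζ, z1, z2, z3, z5, z4⟩ := labE (m := m * g) side w' W' (fun x i => hW0 _ i)
    (fun x v => by
      show |w (finProdFinEquiv.symm x).1 v * c ((finProdFinEquiv.symm x).2 : ℕ) v| ≤
        W (finProdFinEquiv.symm x).1 (side v)
      rw [abs_mul]
      calc |w (finProdFinEquiv.symm x).1 v| * |c ((finProdFinEquiv.symm x).2 : ℕ) v|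
          ≤ |w (finProdFinEquiv.symm x).1 v| * 1 :=
            mul_le_mul_of_nonneg_left (hc1 _ (Fin.is_lt _) v) (abs_nonneg _)
        _ ≤ _ := by rw [mul_one]; exact hW _ v) ξ hξ a' e' Sp (g * Mu) Λ hSp0
    (mul_nonneg (Nat.cast_nonneg _) hMu0)
    (fun x => by
      refine le_trans ?_ (hSp x.1)
      have : (univ.filter fun v => a' x v ≠ 0) ⊆ univ.filter fun v => a x.1 v ≠ 0 := by
        intro v hv
        refine mem_filter.2 ⟨mem_univ _, fun h => (mem_filter.1 hv).2 ?_⟩
        show a x.1 v * c (x.2.down : ℕ) v = 0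
        rw [h, zero_mul]
      exact_mod_cast card_le_card this)
    (fun x => by
      refine le_trans ?_ (hSc x.1)
      have : (univ.filter fun i => ∃ k, e' x k i ≠ 0) ⊆ univ.filter fun i => ∃ k, e x.1 k i ≠ 0 :=
        fun i hi => mem_filter.2 ⟨mem_univ _, he'ne x i (mem_filter.1 hi).2⟩
      exact_mod_cast card_le_card this)
    (fun v => by
      have h1 : (univ.filter fun x => a' x v ≠ 0) ⊆
          (univ.filter fun q => a q v ≠ 0) ×ˢ (univ : Finset (ULift.{u} (Fin g))) := by
        intro x hx
        refine mem_product.2 ⟨mem_filter.2 ⟨mem_univ _, fun h => (mem_filter.1 hx).2 ?_⟩, mem_univ _⟩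
        show a x.1 v * c (x.2.down : ℕ) v = 0
        rw [h, zero_mul]
      have h2 : ((univ.filter fun x => a' x v ≠ 0).card : ℝ) ≤
          ((univ.filter fun q => a q v ≠ 0).card : ℝ) * g := by
        have := card_le_card h1
        rw [card_product, card_univ, Fintype.card_ulift, Fintype.card_fin] at this
        exact_mod_cast this
      refine h2.trans ?_
      rw [mul_comm]
      exact mul_le_mul_of_nonneg_left (hMu v) (Nat.cast_nonneg _))
    (fun i => by
      have h1 : (univ.filter fun x => ∃ k, e' x k i ≠ 0) ⊆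
          (univ.filter fun q => ∃ k, e q k i ≠ 0) ×ˢ (univ : Finset (ULift.{u} (Fin g))) :=
        fun x hx => mem_product.2 ⟨mem_filter.2 ⟨mem_univ _, he'ne x i (mem_filter.1 hx).2⟩,
          mem_univ _⟩
      have h2 : ((univ.filter fun x => ∃ k, e' x k i ≠ 0).card : ℝ) ≤
          ((univ.filter fun q => ∃ k, e q k i ≠ 0).card : ℝ) * g := by
        have := card_le_card h1
        rw [card_product, card_univ, Fintype.card_ulift, Fintype.card_fin] at this
        exact_mod_cast this
      refine h2.trans ?_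
      rw [mul_comm]
      exact mul_le_mul_of_nonneg_left (hMc i) (Nat.cast_nonneg _)) hΛ
    (by
      push_cast
      exact hL) J hJ
  set L' : V → ℕ := fun v => if L v = l then (if ζ v = 1 then l else l + 1) else L v with hL'
  have hL'1 : ∀ v, L v = l → ζ v = 1 → L' v = l := fun v h h' => by
    rw [hL']; show (if L v = l then (if ζ v = 1 then l else l + 1) else L v) = l
    rw [if_pos h, if_pos h']
  have hL'2 : ∀ v, L v = l → ζ v = -1 → L' v = l + 1 := fun v h h' => by
    rw [hL']; show (if L v = l then (if ζ v = 1 then l else l + 1) else L v) = l + 1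
    rw [if_pos h, if_neg (by rw [h']; norm_num)]
  have hL'3 : ∀ v, L v ≠ l → L' v = L v := fun v h => by
    rw [hL']; show (if L v = l then (if ζ v = 1 then l else l + 1) else L v) = L v
    rw [if_neg h]
  have hξ1 : ∀ v, L v = l → ξ v = 2 * (p v l / rem g p l v) - 1 := fun v h => by
    rw [hξd]; show (if L v = l then 2 * (p v l / rem g p l v) - 1 else 1) = _
    rw [if_pos h]
  -- the key identity
  have key : ∀ j, j < g → ∀ v, co g p L' (l + 1) j v - co g p L l j v =
      (if j = l then 1 / 2 else if l < j then -(1 / 2) else 0) * (c j v * (ζ v - ξ v)) := by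
    intro j hj v
    by_cases hv : L v = l
    · have hi : ind L l v = 1 := by unfold ind; rw [if_pos hv]
      have hrem : 0 < rem g p l v := hLr v hv
      have hcj : c j v = cf g p l j v := by
        rw [hc]
        show ind L l v * cf g p l j v = _
        rw [hi, one_mul]
      rcases lt_trichotomy j l with hjl | hjl | hjl
      · have h1 : co g p L' (l + 1) j v = 0 := by
          unfold co
          rw [if_pos (by omega)]
          unfold ind
          rw [if_neg]
          rcases z1 v with h | h
          · rw [hL'1 v hv h]; omega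
          · rw [hL'2 v hv h]; omega
        have h2 : co g p L l j v = 0 := by
          unfold co
          rw [if_pos hjl]
          unfold ind
          rw [if_neg (by omega)]
        rw [h1, h2, if_neg (by omega), if_neg (by omega)]
        ring
      · subst hjl
        have h2 : co g p L j j v = p v j / rem g p j v := by
          unfold co
          rw [if_neg (lt_irrefl _), hi, one_mul]
        have h3 : c j v = 1 := by
          rw [hcj]
          unfold cf
          rw [if_pos rfl]
        have h1 : co g p L' (j + 1) j v = (1 + ζ v) / 2 := by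
          unfold co
          rw [if_pos (Nat.lt_succ_self j)]
          unfold ind
          rcases z1 v with h | h
          · rw [hL'1 v hv h, if_pos rfl, h]; norm_num
          · rw [hL'2 v hv h, if_neg (by omega), h]; norm_num
        rw [h1, h2, if_pos rfl, h3, hξ1 v hv]
        ring
      · have h2 : co g p L l j v = p v j / rem g p l v := by
          unfold co
          rw [if_neg (by omega), hi, one_mul]
        have h3 : c j v = p v j / rem g p (l + 1) v := by
          rw [hcj]
          unfold cf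
          rw [if_neg (by omega), if_pos hjl]
        have h1 : co g p L' (l + 1) j v = (1 - ζ v) / 2 * (p v j / rem g p (l + 1) v) := by
          unfold co
          rw [if_neg (by omega)]
          unfold ind
          rcases z1 v with h | h
          · rw [hL'1 v hv h, if_neg (by omega), h]; norm_num
          · rw [hL'2 v hv h, if_pos rfl, h]; norm_num
        rw [h1, h2, if_neg (by omega), if_pos hjl, h3, hξ1 v hv]
        rcases eq_or_lt_of_le (rem_nonneg (g := g) hp (l + 1) v) with h0 | h0
        · have h4 : p v j = 0 := by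
            have := le_rem (g := g) hp (show l + 1 ≤ j by omega) hj v
            rw [← h0] at this
            exact le_antisymm this (hp v j)
          rw [h4]
          simp
        · have h5 := rem_succ (g := g) (p := p) hl v
          have h6 : p v l / rem g p l v = 1 - rem g p (l + 1) v / rem g p l v := by
            field_simp
            linarith
          rw [h6]
          field_simp
          ring
    · have hi : ind L l v = 0 := by unfold ind; rw [if_neg hv]
      have hcj : c j v = 0 := by
        rw [hc]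
        show ind L l v * cf g p l j v = _
        rw [hi, zero_mul]
      rw [hcj, zero_mul, mul_zero]
      have hlt : L v < l := lt_of_le_of_ne (hLl v) hv
      have h7 := hL'3 v hv
      unfold co
      by_cases hjl : j < l
      · rw [if_pos (by omega), if_pos hjl]
        unfold ind
        rw [h7, sub_self]
      · by_cases hjl2 : j < l + 1
        · have : j = l := by omega
          subst this
          rw [if_pos hjl2, if_neg (lt_irrefl _), hi, zero_mul, sub_zero]
          unfold ind
          rw [if_neg (by rw [h7]; omega)]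
        · rw [if_neg hjl2, if_neg hjl, hi, zero_mul, sub_zero]
          unfold ind
          rw [if_neg (by rw [h7]; omega), zero_mul]
  have hcoef : ∀ j : ℕ, |(if j = l then (1 / 2 : ℝ) else if l < j then -(1 / 2) else 0)| ≤ 1 / 2 := by
    intro j
    split_ifs
    · norm_num
    · norm_num [abs_neg]
    · norm_num
  refine ⟨L', fun v => ?_, fun v hv => ?_, fun v hv => ?_, hL'3, fun v hv => ?_,
    fun i k j hj => ?_, fun i π hU hr j hj => ?_, fun q j hj => ?_⟩
  · by_cases h : L v = l
    · rcases z1 v with h' | h'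
      · rw [hL'1 v h h']; omega
      · rw [hL'2 v h h']
    · rw [hL'3 v h]
      exact (hLl v).trans (Nat.le_succ l)
  · by_cases h : L v = l
    · rcases z1 v with h' | h'
      · rw [hL'1 v h h'] at hv; omega
      · rcases eq_or_lt_of_le (rem_nonneg (g := g) hp (l + 1) v) with h0 | h0
        · exfalso
          have h5 := rem_succ (g := g) (p := p) hl v
          rw [← h0, add_zero] at h5
          have h8 : ξ v = 1 := by
            rw [hξ1 v h, ← h5, div_self (hLr v h).ne']
            norm_num
          have h9 := z2 v (by rw [h8]; norm_num)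
          rw [h8, h'] at h9
          norm_num at h9
        · exact h0
    · rw [hL'3 v h] at hv
      have := hLl v
      omega
  · by_cases h : L v = l
    · rcases z1 v with h' | h'
      · rcases eq_or_lt_of_le (hp v l) with h0 | h0
        · exfalso
          have h8 : ξ v = -1 := by
            rw [hξ1 v h, ← h0]
            simp
          have h9 := z2 v (by rw [h8]; norm_num)
          rw [h8, h'] at h9
          norm_num at h9
        · exact h0
      · rw [hL'2 v h h'] at hv; omega
    · rw [hL'3 v h] at hv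
      exact absurd hv h
  · rcases z1 v with h' | h'
    · rw [hL'1 v hv h']
    · rw [hL'2 v hv h']; omega
  · have h1 : ∑ v ∈ univ.filter (fun v => side v = i),
        (co g p L' (l + 1) j v - co g p L l j v) * w k v =
        (if j = l then 1 / 2 else if l < j then -(1 / 2) else 0) *
        ∑ v ∈ univ.filter (fun v => side v = i), (ζ v - ξ v) * (w k v * c j v) := by
      rw [mul_sum]
      refine sum_congr rfl fun v _ => ?_
      rw [key j hj v]
      ring
    rw [h1, abs_mul]
    have h2 := z3 i (finProdFinEquiv (k, ⟨j, hj⟩))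
    have h3 : ∑ v ∈ univ.filter (fun v => side v = i), (ζ v - ξ v) * w' (finProdFinEquiv (k, ⟨j, hj⟩)) v =
        ∑ v ∈ univ.filter (fun v => side v = i), (ζ v - ξ v) * (w k v * c j v) := by
      refine sum_congr rfl fun v _ => ?_
      rw [hw']
      show (ζ v - ξ v) * (w (finProdFinEquiv.symm (finProdFinEquiv (k, (⟨j, hj⟩ : Fin g)))).1 v *
        c ((finProdFinEquiv.symm (finProdFinEquiv (k, (⟨j, hj⟩ : Fin g)))).2 : ℕ) v) = _
      rw [Equiv.symm_apply_apply]
    have h4 : W' (finProdFinEquiv (k, ⟨j, hj⟩)) i = W k i := by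
      rw [hW']
      show W (finProdFinEquiv.symm (finProdFinEquiv (k, (⟨j, hj⟩ : Fin g)))).1 i = _
      rw [Equiv.symm_apply_apply]
    rw [h3, h4] at h2
    calc _ ≤ 1 / 2 * (2 * (((m * g : ℕ) : ℝ) + 2) * W k i) :=
          mul_le_mul (hcoef j) h2 (abs_nonneg _) (by norm_num)
      _ = _ := by push_cast; ring
  · -- exact cardinalities
    have hzx : ∀ v, L v ≠ l → ζ v - ξ v = 0 := by
      intro v hv
      have h1 : ξ v = 1 := by
        rw [hξd]
        show (if L v = l then 2 * (p v l / rem g p l v) - 1 else 1) = 1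
        rw [if_neg hv]
      rw [z2 v (by rw [h1, abs_one]), sub_self]
    have hdead : ∀ v, side v = i → L v = l → (∃ j, j < g ∧ p v j = 1) → ζ v - ξ v = 0 := by
      rintro v hv hvl ⟨j0, hj0, hpj⟩
      have hoth : ∀ j', j' < g → j' ≠ j0 → p v j' = 0 := by
        intro j' hj' hne
        have h1 := hp1 v
        rw [← add_sum_erase _ _ (mem_range.2 hj0), hpj] at h1
        have h2 : ∑ x ∈ (range g).erase j0, p v x = 0 := by linarith
        exact (sum_eq_zero_iff_of_nonneg fun x _ => hp v x).1 h2 j'
          (mem_erase.2 ⟨hne, mem_range.2 hj'⟩)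
      have hrem := hLr v hvl
      have h3 : |ξ v| = 1 := by
        rw [hξ1 v hvl]
        by_cases hjl : j0 = l
        · subst hjl
          have h4 : rem g p j0 v = 1 := by
            rw [rem, sum_eq_single j0]
            · exact hpj
            · intro j' hj' hne
              exact hoth j' (mem_Ico.1 hj').2 hne
            · intro h
              exact absurd (mem_Ico.2 ⟨le_rfl, hj0⟩) h
          rw [hpj, h4]
          norm_num
        · rw [hoth l hl fun h => hjl h.symm, zero_div]
          norm_num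
      rw [z2 v h3, sub_self]
    -- the total
    have hE : ∑ v ∈ univ.filter (fun v => side v = i), (ζ v - ξ v) = 0 := by
      obtain ⟨r, hr⟩ := hr
      have h1 : ∀ v, (1 + ξ v) / 2 = (if L v = l then 0 else 1) + co g p L l l v := by
        intro v
        unfold co ind
        rw [if_neg (lt_irrefl l)]
        by_cases hv : L v = l
        · rw [if_pos hv, if_pos hv, hξ1 v hv]
          ring
        · rw [if_neg hv, if_neg hv]
          have h2 : ξ v = 1 := by
            rw [hξd]
            show (if L v = l then 2 * (p v l / rem g p l v) - 1 else 1) = 1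
            rw [if_neg hv]
          rw [h2]
          norm_num
      have h2 : ∀ v, (1 + ζ v) / 2 = if ζ v = 1 then 1 else 0 := by
        intro v
        rcases z1 v with h | h
        · rw [if_pos h, h]; norm_num
        · rw [if_neg (by rw [h]; norm_num), h]; norm_num
      have h3 : ∑ v ∈ univ.filter (fun v => side v = i), (ζ v - ξ v) =
          2 * (((((univ.filter fun v => side v = i).filter fun v => ζ v = 1).card : ℤ) -
            ((univ.filter fun v => side v = i).filter fun v => ¬ L v = l).card - r : ℤ) : ℝ) := by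
        have h4 : ∑ v ∈ univ.filter (fun v => side v = i), (ζ v - ξ v) =
            2 * (∑ v ∈ univ.filter (fun v => side v = i), (1 + ζ v) / 2 -
              ∑ v ∈ univ.filter (fun v => side v = i), (1 + ξ v) / 2) := by
          rw [← sum_sub_distrib, mul_sum]
          exact sum_congr rfl fun v _ => by ring
        rw [h4, sum_congr rfl fun v _ => h1 v, sum_congr rfl fun v _ => h2 v, sum_add_distrib, hr]
        have h5 : ∑ v ∈ univ.filter (fun v => side v = i), (if L v = l then (0 : ℝ) else 1) =
            (((univ.filter fun v => side v = i).filter fun v => ¬ L v = l).card : ℝ) := by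
          rw [← sum_boole]
          exact sum_congr rfl fun v _ => by split_ifs <;> rfl
        rw [h5, sum_boole]
        push_cast
        ring
      have h6 := z5 i
      rw [h3] at h6 ⊢
      set R : ℤ := (((univ.filter fun v => side v = i).filter fun v => ζ v = 1).card : ℤ) -
            ((univ.filter fun v => side v = i).filter fun v => ¬ L v = l).card - r with hR
      have h7 : |(R : ℝ)| < 1 := by
        rw [abs_mul, abs_of_pos (by norm_num : (0 : ℝ) < 2)] at h6
        linarith
      have h8 : |R| < 1 := by exact_mod_cast h7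
      rw [Int.abs_lt_one_iff.1 h8]
      norm_num
    have h1 : ∑ v ∈ univ.filter (fun v => side v = i),
        (co g p L' (l + 1) j v - co g p L l j v) =
        (if j = l then 1 / 2 else if l < j then -(1 / 2) else 0) *
        ∑ v ∈ univ.filter (fun v => side v = i), c j v * (ζ v - ξ v) := by
      rw [mul_sum]
      exact sum_congr rfl fun v _ => key j hj v
    rw [h1]
    have h2 : ∃ C : ℝ, ∀ v, side v = i → c j v * (ζ v - ξ v) = C * (ζ v - ξ v) := by
      rcases lt_trichotomy j l with hjl | hjl | hjl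
      · refine ⟨0, fun v hv => ?_⟩
        have : cf g p l j v = 0 := by
          unfold cf
          rw [if_neg (by omega), if_neg (by omega)]
        rw [hc]
        show ind L l v * cf g p l j v * _ = _
        simp [this]
      · refine ⟨1, fun v hv => ?_⟩
        by_cases hvl : L v = l
        · have h3 : c j v = 1 := by
            rw [hc]
            show ind L l v * cf g p l j v = 1
            unfold ind cf
            rw [if_pos hvl, if_pos hjl, one_mul]
          rw [h3]
        · rw [hzx v hvl, mul_zero, mul_zero]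
      · refine ⟨π j / ∑ j' ∈ Ico (l + 1) g, π j', fun v hv => ?_⟩
        by_cases hvl : L v = l
        · rcases hU v hv with hd | ha
          · rw [hdead v hv hvl hd, mul_zero, mul_zero]
          · have h3 : c j v = π j / ∑ j' ∈ Ico (l + 1) g, π j' := by
              rw [hc]
              show ind L l v * cf g p l j v = _
              unfold ind cf
              rw [if_pos hvl, if_neg (by omega), if_pos hjl, one_mul, ha j hj, rem]
              congr 1
              exact sum_congr rfl fun j' hj' => ha j' (mem_Ico.1 hj').2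
            rw [h3]
        · rw [hzx v hvl, mul_zero, mul_zero]
    obtain ⟨C, hC⟩ := h2
    have h3 : ∑ v ∈ univ.filter (fun v => side v = i), c j v * (ζ v - ξ v) =
        C * ∑ v ∈ univ.filter (fun v => side v = i), (ζ v - ξ v) := by
      rw [mul_sum]
      exact sum_congr rfl fun v hv => hC v (mem_filter.1 hv).2
    rw [h3, hE, mul_zero, mul_zero]
  · have h1 : ∑ v, (a q v + sc side w (e q) v) * (co g p L' (l + 1) j v - co g p L l j v) =
        (if j = l then 1 / 2 else if l < j then -(1 / 2) else 0) *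
        ∑ v, ((a q v + sc side w (e q) v) * c j v) * (ζ v - ξ v) := by
      rw [mul_sum]
      refine sum_congr rfl fun v _ => ?_
      rw [key j hj v]
      ring
    rw [h1, abs_mul]
    have h2 := z4 (q, ⟨⟨j, hj⟩⟩)
    have h2' : ∑ v, (a' (q, ⟨⟨j, hj⟩⟩) v + sc side w' (e' (q, ⟨⟨j, hj⟩⟩)) v) * (ζ v - ξ v) =
        ∑ v, ((a q v + sc side w (e q) v) * c j v) * (ζ v - ξ v) := by
      refine sum_congr rfl fun v _ => ?_
      rw [hsc']
      show (a q v * c j v + sc side w (e q) v * c j v) * _ = _
      ring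
    have h2'' : ∑ i, sw W' (e' (q, ⟨⟨j, hj⟩⟩)) i ^ 2 = ∑ i, sw W (e q) i ^ 2 :=
      sum_congr rfl fun i _ => by rw [hsw']
    rw [h2', h2''] at h2
    have h3 : Real.sqrt (∑ v, a' (q, ⟨⟨j, hj⟩⟩) v ^ 2) ≤ Real.sqrt (∑ v, a q v ^ 2) := by
      refine Real.sqrt_le_sqrt (sum_le_sum fun v _ => ?_)
      rw [ha']
      show (a q v * c j v) ^ 2 ≤ _
      rw [mul_pow]
      have h4 : c j v ^ 2 ≤ 1 := by
        rw [← sq_abs]
        exact pow_le_one₀ (abs_nonneg _) (hc1 j hj v)
      calc a q v ^ 2 * c j v ^ 2 ≤ a q v ^ 2 * 1 := mul_le_mul_of_nonneg_left h4 (sq_nonneg _)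
        _ = _ := mul_one _
    push_cast at h2
    have h5 : (0 : ℝ) ≤ (J + 2) * (Real.sqrt (32 * ((m : ℝ) * g + 1) * Λ) + 1) := by positivity
    have h6 := h2.trans (add_le_add_left (mul_le_mul_of_nonneg_left h3 h5) _)
    have h7 : (0 : ℝ) ≤ (J + 2) * (Real.sqrt (32 * ((m : ℝ) * g + 1) * Λ) + 1) *
          Real.sqrt (∑ v, a q v ^ 2) +
        2 * (m * g + 1) * (Real.sqrt (32 * Λ) + 1) * Real.sqrt (∑ i, sw W (e q) i ^ 2) := by
      positivity
    calc _ ≤ 1 / 2 * ((J + 2) * (Real.sqrt (32 * ((m : ℝ) * g + 1) * Λ) + 1) *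
          Real.sqrt (∑ v, a q v ^ 2) +
        2 * (m * g + 1) * (Real.sqrt (32 * Λ) + 1) * Real.sqrt (∑ i, sw W (e q) i ^ 2)) :=
          mul_le_mul (hcoef j) h6 (abs_nonneg _) (by norm_num)
      _ ≤ _ := by linarith

/-- all the steps -/
theorem iterE {m g : ℕ} (side : V → ι) (w : Fin m → V → ℝ) (W : Fin m → ι → ℝ)
    (hW0 : ∀ k i, 0 ≤ W k i) (hW : ∀ k v, |w k v| ≤ W k (side v)) (p : V → ℕ → ℝ)
    (hp : ∀ v j, 0 ≤ p v j) (hp1 : ∀ v, ∑ j ∈ range g, p v j = 1) (a : κ → V → ℝ)
    (e : κ → Fin m → ι → ℝ) (Sp Mu Λ : ℝ) (hSp0 : 0 ≤ Sp) (hMu0 : 0 ≤ Mu)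
    (hSp : ∀ q, ((univ.filter fun v => a q v ≠ 0).card : ℝ) ≤ Sp)
    (hSc : ∀ q, ((univ.filter fun i => ∃ k, e q k i ≠ 0).card : ℝ) ≤ Sp)
    (hMu : ∀ v, ((univ.filter fun q => a q v ≠ 0).card : ℝ) ≤ Mu)
    (hMc : ∀ i, ((univ.filter fun q => ∃ k, e q k i ≠ 0).card : ℝ) ≤ Mu) (hΛ : 0 ≤ Λ)
    (hL : 32 * Real.exp (-Λ) * ((m * g + 2) * Sp + 1) * (4 * (m * g + 1) * (g * Mu) + 1) ≤ 1)
    (J : ℕ)
    (hJ : ∀ i, (univ.filter fun v => side v = i).card < 2 ^ J) (l : ℕ) (hl : l ≤ g) :
    ∃ L : V → ℕ, (∀ v, L v ≤ l) ∧ (∀ v, L v = l → 0 < rem g p l v) ∧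
      (∀ v, L v < l → 0 < p v (L v)) ∧
      (∀ i k j, j < g → |∑ v ∈ univ.filter (fun v => side v = i),
        (co g p L l j v - p v j) * w k v| ≤ l * ((m * g + 2) * W k i)) ∧
      (∀ i π, Uni side g p i π → (∀ j, j < g → ∃ r : ℕ,
        ∑ v ∈ univ.filter (fun v => side v = i), p v j = r) →
        ∀ j, j < g → ∑ v ∈ univ.filter (fun v => side v = i), co g p L l j v =
          ∑ v ∈ univ.filter (fun v => side v = i), p v j) ∧
      ∀ q j, j < g → |∑ v, (a q v + sc side w (e q) v) * (co g p L l j v - p v j)| ≤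
        l * ((J + 2) * (Real.sqrt (32 * (m * g + 1) * Λ) + 1) * Real.sqrt (∑ v, a q v ^ 2) +
        2 * (m * g + 1) * (Real.sqrt (32 * Λ) + 1) * Real.sqrt (∑ i, sw W (e q) i ^ 2)) := by
  induction l with
  | zero =>
    have h1 : ∀ v, rem g p 0 v = 1 := by
      intro v
      rw [← hp1 v, rem, range_eq_Ico]
    have h2 : ∀ j v, co g p (fun _ => 0) 0 j v = p v j := by
      intro j v
      unfold co ind
      rw [if_neg (Nat.not_lt_zero j), if_pos rfl, h1, div_one, one_mul]
    refine ⟨fun _ => 0, fun v => le_rfl, fun v _ => by rw [h1]; exact one_pos,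
      fun v h => absurd h (lt_irrefl _), fun i k j _ => ?_, fun i π _ _ j _ => ?_,
      fun q j _ => ?_⟩
    · simp [h2]
    · simp [h2]
    · simp [h2]
  | succ l ih =>
    obtain ⟨L, e1, e2, e3, e4, e6, e5⟩ := ih (by omega)
    obtain ⟨L', f1, f2, f3, f4, f5, f6, f8, f7⟩ := stepE side w W hW0 hW p hp hp1 a e Sp Mu Λ hSp0
      hMu0 hSp hSc hMu hMc hΛ hL J hJ l (by omega) L e1 e2
    refine ⟨L', f1, f2, fun v hv => ?_, fun i k j hj => ?_, fun i π hU hr j hj => ?_,
      fun q j hj => ?_⟩
    · by_cases h : L v = l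
      · have h1 := f5 v h
        have h2 : L' v = l := by omega
        rw [h2]
        exact f3 v h2
      · rw [f4 v h]
        exact e3 v (lt_of_le_of_ne (e1 v) h)
    · have h1 : ∑ v ∈ univ.filter (fun v => side v = i), (co g p L' (l + 1) j v - p v j) * w k v =
          ∑ v ∈ univ.filter (fun v => side v = i),
            (co g p L' (l + 1) j v - co g p L l j v) * w k v +
          ∑ v ∈ univ.filter (fun v => side v = i), (co g p L l j v - p v j) * w k v := by
        rw [← sum_add_distrib]
        exact sum_congr rfl fun v _ => by ring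
      rw [h1]
      refine (abs_add_le _ _).trans ((add_le_add (f6 i k j hj) (e4 i k j hj)).trans (le_of_eq ?_))
      push_cast
      ring
    · have h0 := e6 i π hU hr
      obtain ⟨r, hr'⟩ := hr l (by omega)
      have h1 := f8 i π hU ⟨(r : ℤ), by rw [h0 l (by omega), hr']; norm_num⟩ j hj
      rw [sum_sub_distrib] at h1
      rw [← h0 j hj]
      linarith
    · have h1 : ∑ v, (a q v + sc side w (e q) v) * (co g p L' (l + 1) j v - p v j) =
          ∑ v, (a q v + sc side w (e q) v) * (co g p L' (l + 1) j v - co g p L l j v) +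
          ∑ v, (a q v + sc side w (e q) v) * (co g p L l j v - p v j) := by
        rw [← sum_add_distrib]
        exact sum_congr rfl fun v _ => by ring
      rw [h1]
      refine (abs_add_le _ _).trans ((add_le_add (f7 q j hj) (e5 q j hj)).trans (le_of_eq ?_))
      push_cast
      ring

/-- **LABE: LAB with several labels, exact cardinalities and refined tests.** -/
theorem labME {m g : ℕ} (side : V → ι) (w : Fin m → V → ℝ) (W : Fin m → ι → ℝ)
    (hW0 : ∀ k i, 0 ≤ W k i) (hW : ∀ k v, |w k v| ≤ W k (side v)) (p : V → ℕ → ℝ)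
    (hp : ∀ v j, 0 ≤ p v j) (hp1 : ∀ v, ∑ j ∈ range g, p v j = 1) (b : κ → V → ℝ)
    (c : κ → Fin m → ι → ℝ) (Sp Mu Λ : ℝ) (hSp0 : 0 ≤ Sp) (hMu0 : 0 ≤ Mu)
    (hSp : ∀ q, ((univ.filter fun v => b q v ≠ 0).card : ℝ) ≤ Sp)
    (hSc : ∀ q, ((univ.filter fun i => ∃ k, c q k i ≠ 0).card : ℝ) ≤ Sp)
    (hMu : ∀ v, ((univ.filter fun q => b q v ≠ 0).card : ℝ) ≤ Mu)
    (hMc : ∀ i, ((univ.filter fun q => ∃ k, c q k i ≠ 0).card : ℝ) ≤ Mu) (hΛ : 0 ≤ Λ)
    (hL : 32 * Real.exp (-Λ) * ((m * g + 3) * Sp + 1) * (8 * (m * g + 1) * (g * Mu) + 1) ≤ 1)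
    (J : ℕ) (hJ : ∀ i, (univ.filter fun v => side v = i).card < 2 ^ J) :
    ∃ L : V → ℕ, (∀ v, L v < g) ∧ (∀ v, 0 < p v (L v)) ∧
      (∀ i k j, j < g → |∑ v ∈ univ.filter (fun v => side v = i),
        ((if L v = j then 1 else 0) - p v j) * w k v| ≤ g * ((m * g + 2) * W k i)) ∧
      (∀ i (π : ℕ → ℝ), (∀ v, side v = i → (∃ j, j < g ∧ p v j = 1) ∨ ∀ j, j < g → p v j = π j) →
        (∀ j, j < g → ∃ r : ℕ, ∑ v ∈ univ.filter (fun v => side v = i), p v j = r) →
        ∀ j, j < g → ((univ.filter fun v => side v = i ∧ L v = j).card : ℝ) =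
          ∑ v ∈ univ.filter (fun v => side v = i), p v j) ∧
      ∀ q j, j < g → |∑ v, (b q v + sc side w (c q) v) * ((if L v = j then 1 else 0) - p v j)| ≤
        g * ((J + 2) * (Real.sqrt (32 * (m * g + 1) * Λ) + 1) * Real.sqrt (∑ v, b q v ^ 2) +
        2 * (m * g + 1) * (Real.sqrt (32 * Λ) + 1) * Real.sqrt (∑ i, sw W (c q) i ^ 2)) := by
  have hL' : 32 * Real.exp (-Λ) * ((m * g + 2) * Sp + 1) * (4 * (m * g + 1) * (g * Mu) + 1) ≤ 1 := by
    refine le_trans ?_ hL
    have h0 : (0 : ℝ) ≤ m * g := by positivity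
    have h1 : (0 : ℝ) ≤ 32 * Real.exp (-Λ) := by positivity
    have h2 : (0 : ℝ) ≤ (m * g + 1) * (g * Mu) := by positivity
    have h3 : ((m : ℝ) * g + 2) * Sp + 1 ≤ (m * g + 3) * Sp + 1 := by nlinarith
    have h4 : 4 * ((m : ℝ) * g + 1) * (g * Mu) + 1 ≤ 8 * (m * g + 1) * (g * Mu) + 1 := by nlinarith
    exact mul_le_mul (mul_le_mul_of_nonneg_left h3 h1) h4 (by nlinarith)
      (mul_nonneg h1 (by positivity))
  obtain ⟨L, e1, e2, e3, e4, e6, e5⟩ := iterE side w W hW0 hW p hp hp1 b c Sp Mu Λ hSp0 hMu0
      hSp hSc hMu hMc hΛ hL' J hJ g le_rfl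
  have h1 : ∀ v, L v < g := by
    intro v
    refine lt_of_le_of_ne (e1 v) fun h => ?_
    have := e2 v h
    rw [rem, Ico_self, sum_empty] at this
    exact lt_irrefl _ this
  have h2 : ∀ j, j < g → ∀ v, co g p L g j v = if L v = j then 1 else 0 := by
    intro j hj v
    unfold co
    rw [if_pos hj]
    rfl
  refine ⟨L, h1, fun v => e3 v (h1 v), fun i k j hj => ?_, fun i π hU hr j hj => ?_,
    fun q j hj => ?_⟩
  · have := e4 i k j hj
    simp only [h2 j hj] at this
    exact this
  · have := e6 i π hU hr j hj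
    simp only [h2 j hj] at this
    rw [← this, sum_boole, filter_filter]
  · have := e5 q j hj
    simp only [h2 j hj] at this
    exact this

end Pool.Agent.Work.MP_db9399_lab.helper61
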