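import Pool.Agent.Work.MP_db9399_lab_helper61.Multi

/-!
# MP_db9399, LAB with exact cardinalities and refined tests (helper61)

`labE`: as `lab`, moreover `|∑ over a side (ζ - ξ)| < 2` (so the number of labels `1` is exact if its
fractional value is an integer), and the part of a test form which on every side is a combination of
the functionals only pays the last roundings.
-/

set_option autoImplicit false

namespace Pool.Agent.Work.MP_db9399_lab.helper61

open Finset Classical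

universe u

variable {V ι κ : Type u} [Fintype V] [Fintype ι] [Fintype κ]

/-- the part of a test form which is a combination of the functionals on every side -/
noncomputable def sc {m : ℕ} (side : V → ι) (w : Fin m → V → ℝ) (c : Fin m → ι → ℝ) (v : V) : ℝ :=
  ∑ k, c k (side v) * w k v

/-- its size on the side `i` -/
noncomputable def sw {m : ℕ} (W : Fin m → ι → ℝ) (c : Fin m → ι → ℝ) (i : ι) : ℝ :=
  ∑ k, |c k i| * W k i

omit [Fintype V] [Fintype ι] in
theorem sc_abs {m : ℕ} (side : V → ι) (w : Fin m → V → ℝ) (W : Fin m → ι → ℝ)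
    (hW : ∀ k v, |w k v| ≤ W k (side v)) (c : Fin m → ι → ℝ) (v : V) :
    |sc side w c v| ≤ sw W c (side v) := by
  refine (abs_sum_le_sum_abs _ _).trans (sum_le_sum fun k _ => ?_)
  rw [abs_mul]
  exact mul_le_mul_of_nonneg_left (hW k v) (abs_nonneg _)

omit [Fintype V] [Fintype ι] in
theorem sw_nonneg {m : ℕ} (W : Fin m → ι → ℝ) (hW0 : ∀ k i, 0 ≤ W k i) (c : Fin m → ι → ℝ)
    (i : ι) : 0 ≤ sw W c i := sum_nonneg fun k _ => mul_nonneg (abs_nonneg _) (hW0 k i)

/-- triangle inequality for `nm` -/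
theorem nm_add_le (x y : V → ℝ) : nm (fun v => x v + y v) ≤ nm x + nm y := by
  have h1 := nm_nonneg x
  have h2 := nm_nonneg y
  unfold nm
  rw [Real.sqrt_le_left (by unfold nm at h1 h2; linarith)]
  have h3 : (∑ v, x v * y v) ^ 2 ≤ (∑ v, x v ^ 2) * ∑ v, y v ^ 2 := sum_mul_sq_le_sq_mul_sq _ _ _
  have h4 : ∑ v, x v * y v ≤ Real.sqrt (∑ v, x v ^ 2) * Real.sqrt (∑ v, y v ^ 2) := by
    rw [← Real.sqrt_mul (sum_nonneg fun v _ => sq_nonneg _)]
    exact Real.le_sqrt_of_sq_le h3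
  have h5 : ∑ v, (x v + y v) ^ 2 = ∑ v, x v ^ 2 + 2 * ∑ v, x v * y v + ∑ v, y v ^ 2 := by
    rw [mul_sum, ← sum_add_distrib, ← sum_add_distrib]
    exact sum_congr rfl fun v _ => by ring
  rw [h5, add_sq, Real.sq_sqrt (sum_nonneg fun v _ => sq_nonneg _),
    Real.sq_sqrt (sum_nonneg fun v _ => sq_nonneg _)]
  linarith

theorem nm_mono (x y : V → ℝ) (h : ∀ v, |x v| ≤ |y v|) : nm x ≤ nm y := by
  unfold nm
  refine Real.sqrt_le_sqrt (sum_le_sum fun v _ => ?_)
  rw [← sq_abs (x v), ← sq_abs (y v)]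
  exact pow_le_pow_left₀ (abs_nonneg _) (h v) 2

/-- `ℓ²` norm on the fractional vertices: at most `n` of them on every side -/
theorem nm_side (side : V → ι) (ζ x : V → ℝ) (y : ι → ℝ) (n : ℕ)
    (hn : ∀ i, (fr (bk side i) ζ).card ≤ n) (hx : ∀ v, |x v| ≤ y (side v)) :
    nm (fun v => if |ζ v| < 1 then x v else 0) ≤ Real.sqrt n * Real.sqrt (∑ i, y i ^ 2) := by
  have hy : ∀ v, 0 ≤ y (side v) := fun v => (abs_nonneg _).trans (hx v)
  rw [← Real.sqrt_mul (Nat.cast_nonneg _)]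
  unfold nm
  refine Real.sqrt_le_sqrt ?_
  rw [← sum_fiberwise (s := (univ : Finset V)) (g := side), mul_sum]
  refine sum_le_sum fun i _ => ?_
  have h1 : ∑ v ∈ univ.filter (fun v => side v = i), (if |ζ v| < 1 then x v else 0) ^ 2 =
      ∑ v ∈ fr (bk side i) ζ, x v ^ 2 := by
    rw [fr, bk, sum_filter (p := fun v => |ζ v| < 1)]
    refine sum_congr rfl fun v _ => ?_
    split_ifs <;> simp
  rw [h1]
  have h2 : ∀ v ∈ fr (bk side i) ζ, x v ^ 2 ≤ y i ^ 2 := by
    intro v hv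
    have h3 : side v = i := (mem_filter.1 (mem_filter.1 hv).1).2
    rw [← h3, ← sq_abs (x v)]
    exact pow_le_pow_left₀ (abs_nonneg _) (hx v) 2
  refine (sum_le_card_nsmul _ _ _ h2).trans ?_
  rw [nsmul_eq_mul]
  exact mul_le_mul_of_nonneg_right (by exact_mod_cast hn i) (sq_nonneg _)


/-- the last two levels: at most `n` fractional vertices on every side, functional `1` -/
theorem last {m : ℕ} (side : V → ι) (w : Fin m → V → ℝ) (W : Fin m → ι → ℝ)
    (hW0 : ∀ k i, 0 ≤ W k i) (hW : ∀ k v, |w k v| ≤ W k (side v)) (n n' : ℕ) (x : Fin n' → V → ℝ)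
    (ζ : V → ℝ) (hζ : ∀ v, |ζ v| ≤ 1) (hn : ∀ i, (fr (bk side i) ζ).card ≤ n)
    (b : κ → V → ℝ) (c : κ → Fin m → ι → ℝ) (Sp Mu Λ : ℝ) (hSp0 : 0 ≤ Sp) (hMu0 : 0 ≤ Mu)
    (hSp : ∀ q, ((univ.filter fun v => b q v ≠ 0).card : ℝ) ≤ Sp)
    (hSc : ∀ q, ((univ.filter fun i => ∃ k, c q k i ≠ 0).card : ℝ) ≤ Sp)
    (hMu : ∀ v, ((univ.filter fun q => b q v ≠ 0).card : ℝ) ≤ Mu)
    (hMc : ∀ i, ((univ.filter fun q => ∃ k, c q k i ≠ 0).card : ℝ) ≤ Mu) (hΛ : 0 ≤ Λ)
    (hL : 32 * Real.exp (-Λ) * ((n + 1) * Sp + 1) * (n * (2 * Mu) + 1) ≤ 1) :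
    ∃ η : V → ℝ, (∀ v, |η v| ≤ 1) ∧ (∀ v, |ζ v| = 1 → η v = ζ v) ∧
      (∀ i k, ∑ v ∈ bk side i, η v * x k v = ∑ v ∈ bk side i, ζ v * x k v) ∧
      (∀ i, (fr (bk side i) η).card ≤ n') ∧
      (∀ i k, |∑ v ∈ bk side i, (η v - ζ v) * w k v| ≤ n * (2 * W k i)) ∧
      ∀ q, |∑ v, (b q v + sc side w (c q) v) * (η v - ζ v)| ≤
        (nm (b q) + Real.sqrt n * Real.sqrt (∑ i, sw W (c q) i ^ 2)) *
          (Real.sqrt (8 * n * Λ) + 1) := by
  set a : κ → V → ℝ := fun q v => if |ζ v| < 1 then b q v + sc side w (c q) v else 0 with ha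
  have hsc0 : ∀ q v, sc side w (c q) v ≠ 0 → ∃ k, c q k (side v) ≠ 0 := by
    intro q v hv
    by_contra h
    push Not at h
    refine hv (sum_eq_zero fun k _ => ?_)
    rw [h k, zero_mul]
  have hane : ∀ q v, a q v ≠ 0 → |ζ v| < 1 ∧ (b q v ≠ 0 ∨ ∃ k, c q k (side v) ≠ 0) := by
    intro q v hv
    rw [ha] at hv
    by_cases h : |ζ v| < 1
    · refine ⟨h, ?_⟩
      by_contra h'
      push Not at h'
      refine hv ?_
      show (if |ζ v| < 1 then b q v + sc side w (c q) v else 0) = 0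
      rw [if_pos h, h'.1, zero_add]
      by_contra h2
      obtain ⟨k, hk⟩ := hsc0 q v h2
      exact hk (h'.2 k)
    · exact absurd (if_neg h) hv
  have hSpa : ∀ q, ((univ.filter fun v => a q v ≠ 0).card : ℝ) ≤ (n + 1) * Sp := by
    intro q
    have h1 : (univ.filter fun v => a q v ≠ 0) ⊆ (univ.filter fun v => b q v ≠ 0) ∪
        (univ.filter fun i => ∃ k, c q k i ≠ 0).biUnion fun i => fr (bk side i) ζ := by
      intro v hv
      obtain ⟨h2, h3⟩ := hane q v (mem_filter.1 hv).2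
      rcases h3 with h3 | h3
      · exact mem_union_left _ (mem_filter.2 ⟨mem_univ _, h3⟩)
      · exact mem_union_right _ (mem_biUnion.2 ⟨side v, mem_filter.2 ⟨mem_univ _, h3⟩,
          mem_filter.2 ⟨mem_filter.2 ⟨mem_univ _, rfl⟩, h2⟩⟩)
    have h2 : ((univ.filter fun i => ∃ k, c q k i ≠ 0).biUnion fun i => fr (bk side i) ζ).card ≤
        (univ.filter fun i => ∃ k, c q k i ≠ 0).card * n :=
      card_biUnion_le_card_mul _ _ _ fun i _ => hn i
    have h3 : ((univ.filter fun v => a q v ≠ 0).card : ℝ) ≤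
        ((univ.filter fun v => b q v ≠ 0).card : ℝ) +
          ((univ.filter fun i => ∃ k, c q k i ≠ 0).card : ℝ) * n := by
      exact_mod_cast (card_le_card h1).trans ((card_union_le _ _).trans (Nat.add_le_add_left h2 _))
    have h4 := mul_le_mul_of_nonneg_right (hSc q) (Nat.cast_nonneg n)
    have h5 := hSp q
    nlinarith
  have hMua : ∀ v, ((univ.filter fun q => a q v ≠ 0).card : ℝ) ≤ 2 * Mu := by
    intro v
    have h1 : (univ.filter fun q => a q v ≠ 0) ⊆ (univ.filter fun q => b q v ≠ 0) ∪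
        univ.filter fun q => ∃ k, c q k (side v) ≠ 0 := by
      intro q hq
      obtain ⟨_, h3⟩ := hane q v (mem_filter.1 hq).2
      rcases h3 with h3 | h3
      · exact mem_union_left _ (mem_filter.2 ⟨mem_univ _, h3⟩)
      · exact mem_union_right _ (mem_filter.2 ⟨mem_univ _, h3⟩)
    have h3 : ((univ.filter fun q => a q v ≠ 0).card : ℝ) ≤
        ((univ.filter fun q => b q v ≠ 0).card : ℝ) +
          ((univ.filter fun q => ∃ k, c q k (side v) ≠ 0).card : ℝ) := by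
      exact_mod_cast (card_le_card h1).trans (card_union_le _ _)
    linarith [hMu v, hMc (side v)]
  obtain ⟨η, g1, g2, g3, g4, g5⟩ := level (m := n') side x ζ hζ n hn a ((n + 1) * Sp) (2 * Mu) Λ
    (by positivity) (by positivity) hSpa hMua hΛ hL
  have hd : ∀ v, ¬ |ζ v| < 1 → η v - ζ v = 0 := by
    intro v hv
    rw [g2 v (le_antisymm (hζ v) (not_lt.1 hv)), sub_self]
  refine ⟨η, g1, g2, g3, g4, fun i k => ?_, fun q => ?_⟩
  · have h7 : ∑ v ∈ bk side i, (η v - ζ v) * w k v = ∑ v ∈ fr (bk side i) ζ, (η v - ζ v) * w k v := by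
      refine (sum_subset (filter_subset _ _) fun v hv hv' => ?_).symm
      rw [hd v fun h => hv' (mem_filter.2 ⟨hv, h⟩), zero_mul]
    rw [h7]
    refine (abs_sum_le_sum_abs _ _).trans ?_
    have h9 : ∀ v ∈ fr (bk side i) ζ, |(η v - ζ v) * w k v| ≤ 2 * W k i := by
      intro v hv
      have h10 : side v = i := (mem_filter.1 (mem_filter.1 hv).1).2
      rw [abs_mul]
      have h11 := abs_le.1 (g1 v)
      have h12 := abs_le.1 (hζ v)
      refine mul_le_mul (abs_le.2 ⟨by linarith, by linarith⟩) ?_ (abs_nonneg _) (by norm_num)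
      rw [← h10]
      exact hW k v
    refine (sum_le_card_nsmul _ _ _ h9).trans ?_
    rw [nsmul_eq_mul]
    have h11 : ((fr (bk side i) ζ).card : ℝ) ≤ n := by exact_mod_cast hn i
    exact mul_le_mul_of_nonneg_right h11 (mul_nonneg zero_le_two (hW0 k i))
  · have h1 : ∑ v, (b q v + sc side w (c q) v) * (η v - ζ v) = ∑ v, a q v * (η v - ζ v) := by
      refine sum_congr rfl fun v _ => ?_
      rw [ha]
      show _ = (if |ζ v| < 1 then b q v + sc side w (c q) v else 0) * _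
      split_ifs with h
      · rfl
      · rw [hd v h, mul_zero, mul_zero]
    rw [h1]
    refine (g5 q).trans (mul_le_mul_of_nonneg_right ?_ (by positivity))
    have h2 : nm (a q) ≤ nm (fun v => (if |ζ v| < 1 then b q v else 0) +
        (if |ζ v| < 1 then sc side w (c q) v else 0)) := by
      refine nm_mono _ _ fun v => ?_
      rw [ha]
      show |(if |ζ v| < 1 then b q v + sc side w (c q) v else 0)| ≤ _
      split_ifs <;> simp
    refine h2.trans ((nm_add_le _ _).trans (add_le_add ?_ ?_))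
    · refine nm_mono _ _ fun v => ?_
      split_ifs
      · exact le_rfl
      · rw [abs_zero]
        exact abs_nonneg _
    · exact nm_side side ζ (sc side w (c q)) (sw W (c q)) n hn fun v => sc_abs side w W hW (c q) v


/-- **LAB with exact cardinalities and refined tests.** -/
theorem labE {m : ℕ} (side : V → ι) (w : Fin m → V → ℝ) (W : Fin m → ι → ℝ)
    (hW0 : ∀ k i, 0 ≤ W k i) (hW : ∀ k v, |w k v| ≤ W k (side v)) (ξ : V → ℝ) (hξ : ∀ v, |ξ v| ≤ 1)
    (b : κ → V → ℝ) (c : κ → Fin m → ι → ℝ) (Sp Mu Λ : ℝ) (hSp0 : 0 ≤ Sp) (hMu0 : 0 ≤ Mu)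
    (hSp : ∀ q, ((univ.filter fun v => b q v ≠ 0).card : ℝ) ≤ Sp)
    (hSc : ∀ q, ((univ.filter fun i => ∃ k, c q k i ≠ 0).card : ℝ) ≤ Sp)
    (hMu : ∀ v, ((univ.filter fun q => b q v ≠ 0).card : ℝ) ≤ Mu)
    (hMc : ∀ i, ((univ.filter fun q => ∃ k, c q k i ≠ 0).card : ℝ) ≤ Mu) (hΛ : 0 ≤ Λ)
    (hL : 32 * Real.exp (-Λ) * ((m + 2) * Sp + 1) * (4 * (m + 1) * Mu + 1) ≤ 1) (J : ℕ)
    (hJ : ∀ i, (univ.filter fun v => side v = i).card < 2 ^ J) :
    ∃ ζ : V → ℝ, (∀ v, ζ v = 1 ∨ ζ v = -1) ∧ (∀ v, |ξ v| = 1 → ζ v = ξ v) ∧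
      (∀ i k, |∑ v ∈ univ.filter (fun v => side v = i), (ζ v - ξ v) * w k v| ≤
        2 * (m + 2) * W k i) ∧
      (∀ i, |∑ v ∈ univ.filter (fun v => side v = i), (ζ v - ξ v)| < 2) ∧
      ∀ q, |∑ v, (b q v + sc side w (c q) v) * (ζ v - ξ v)| ≤
        (J + 2) * (Real.sqrt (32 * (m + 1) * Λ) + 1) * Real.sqrt (∑ v, b q v ^ 2) +
        2 * (m + 1) * (Real.sqrt (32 * Λ) + 1) * Real.sqrt (∑ i, sw W (c q) i ^ 2) := by
  set w1 : Fin (m + 1) → V → ℝ := Fin.cons (fun _ => 1) w with hw1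
  have hw10 : w1 0 = fun _ => 1 := rfl
  have hw1s : ∀ k : Fin m, w1 k.succ = w k := fun k => rfl
  have hSpm : (0 : ℝ) ≤ m := Nat.cast_nonneg m
  have hexp := Real.exp_pos (-Λ)
  have hL1 : 32 * Real.exp (-Λ) * (Sp + 1) * (((4 * (m + 1) : ℕ) : ℝ) * Mu + 1) ≤ 1 := by
    refine le_trans ?_ hL
    push_cast
    have h1 : Sp + 1 ≤ (m + 2) * Sp + 1 := by nlinarith
    have h2 : (0 : ℝ) ≤ 4 * (m + 1) * Mu + 1 := by positivity
    exact mul_le_mul_of_nonneg_right (mul_le_mul_of_nonneg_left h1 (by positivity)) h2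
  have h2J : 0 < 2 ^ J := by positivity
  obtain ⟨ζ, h1, h2, h3, h4, h5⟩ := iter (Nat.succ_pos m) side w1 ξ hξ b Sp Mu Λ hSp0 hMu0 hSp hMu
    hΛ hL1 (2 ^ J - 1) (fun i => by
      have := hJ i
      show (univ.filter fun v => side v = i).card ≤ _
      omega) J
  have hs : ∀ i, (fr (bk side i) ζ).card ≤ m + 1 := by
    intro i
    rcases h4 i with h | h
    · exact h
    · rcases Nat.eq_zero_or_pos (fr (bk side i) ζ).card with h0 | h0
      · rw [h0]
        exact Nat.zero_le _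
      · exfalso
        have := Nat.le_mul_of_pos_right (2 ^ J) h0
        omega
  have hLA : 32 * Real.exp (-Λ) * ((((m + 1 : ℕ) : ℝ) + 1) * Sp + 1) *
      (((m + 1 : ℕ) : ℝ) * (2 * Mu) + 1) ≤ 1 := by
    refine le_trans ?_ hL
    push_cast
    have h1 : ((m : ℝ) + 1 + 1) * Sp + 1 = (m + 2) * Sp + 1 := by ring
    have h2 : ((m : ℝ) + 1) * (2 * Mu) + 1 ≤ 4 * (m + 1) * Mu + 1 := by nlinarith
    rw [h1]
    exact mul_le_mul_of_nonneg_left h2 (by positivity)
  obtain ⟨η, g1, g2, g3, g4, g5, g6⟩ := last side w W hW0 hW (m + 1) 1 (fun _ _ => (1 : ℝ)) ζ h1 hs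
    b c Sp Mu Λ hSp0 hMu0 hSp hSc hMu hMc hΛ hLA
  have hLB : 32 * Real.exp (-Λ) * ((((1 : ℕ) : ℝ) + 1) * Sp + 1) *
      (((1 : ℕ) : ℝ) * (2 * Mu) + 1) ≤ 1 := by
    refine le_trans ?_ hL
    push_cast
    have h1 : ((1 : ℝ) + 1) * Sp + 1 ≤ (m + 2) * Sp + 1 := by nlinarith
    have h2 : (1 : ℝ) * (2 * Mu) + 1 ≤ 4 * (m + 1) * Mu + 1 := by nlinarith
    exact mul_le_mul (mul_le_mul_of_nonneg_left h1 (by positivity)) h2 (by positivity)
      (by positivity)
  obtain ⟨θ, f1, f2, f3, f4, f5, f6⟩ := last side w W hW0 hW 1 0 (fun k => Fin.elim0 k) η g1 g4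
    b c Sp Mu Λ hSp0 hMu0 hSp hSc hMu hMc hΛ hLB
  have hfull : ∀ v, |θ v| = 1 := by
    intro v
    by_contra hne
    have h6 : v ∈ fr (bk side (side v)) θ :=
      mem_filter.2 ⟨mem_filter.2 ⟨mem_univ _, rfl⟩, lt_of_le_of_ne (f1 v) hne⟩
    have h7 := card_pos.2 ⟨v, h6⟩
    have h8 := f4 (side v)
    omega
  have hfun : ∀ i k, ∑ v ∈ univ.filter (fun v => side v = i), (ζ v - ξ v) * w1 k v = 0 := by
    intro i k
    have h7 := h3 i k
    have h8 : ∑ v ∈ univ.filter (fun v => side v = i), (ζ v - ξ v) * w1 k v =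
        ∑ v ∈ bk side i, ζ v * w1 k v - ∑ v ∈ bk side i, ξ v * w1 k v := by
      rw [← sum_sub_distrib]
      exact sum_congr rfl fun v _ => by ring
    rw [h8, h7, sub_self]
  refine ⟨θ, fun v => ?_, fun v hv => ?_, fun i k => ?_, fun i => ?_, fun q => ?_⟩
  · have := hfull v
    rcases abs_choice (θ v) with h | h
    · left
      rw [← h, this]
    · right
      rw [this] at h
      linarith
  · have e1 := h2 v hv
    have e2 := g2 v (by rw [e1, hv])
    rw [f2 v (by rw [e2, e1, hv]), e2, e1]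
  · have e1 := hfun i k.succ
    rw [hw1s] at e1
    have e2 : ∑ v ∈ univ.filter (fun v => side v = i), (θ v - ξ v) * w k v =
        ∑ v ∈ bk side i, (θ v - η v) * w k v + ∑ v ∈ bk side i, (η v - ζ v) * w k v +
          ∑ v ∈ univ.filter (fun v => side v = i), (ζ v - ξ v) * w k v := by
      show ∑ v ∈ bk side i, (θ v - ξ v) * w k v = _ + _ + ∑ v ∈ bk side i, (ζ v - ξ v) * w k v
      rw [← sum_add_distrib, ← sum_add_distrib]
      exact sum_congr rfl fun v _ => by ring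
    rw [e2, e1, add_zero]
    refine (abs_add_le _ _).trans ((add_le_add (f5 i k) (g5 i k)).trans (le_of_eq ?_))
    push_cast
    ring
  · have e1 := hfun i 0
    rw [hw10] at e1
    have e3 : ∑ v ∈ bk side i, (η v - ζ v) = 0 := by
      have := g3 i 0
      simp only [mul_one] at this
      rw [sum_sub_distrib, this, sub_self]
    have e2 : ∑ v ∈ univ.filter (fun v => side v = i), (θ v - ξ v) =
        ∑ v ∈ fr (bk side i) η, (θ v - η v) := by
      have e4 : ∑ v ∈ univ.filter (fun v => side v = i), (θ v - ξ v) =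
          ∑ v ∈ bk side i, (θ v - η v) + ∑ v ∈ bk side i, (η v - ζ v) +
            ∑ v ∈ univ.filter (fun v => side v = i), (ζ v - ξ v) * 1 := by
        show ∑ v ∈ bk side i, (θ v - ξ v) = _ + _ + ∑ v ∈ bk side i, (ζ v - ξ v) * 1
        rw [← sum_add_distrib, ← sum_add_distrib]
        exact sum_congr rfl fun v _ => by ring
      rw [e4, e1, e3, add_zero, add_zero]
      refine (sum_subset (filter_subset _ _) fun v hv hv' => ?_).symm
      rw [f2 v (le_antisymm (g1 v) (not_lt.1 fun h => hv' (mem_filter.2 ⟨hv, h⟩))), sub_self]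
    rw [e2]
    rcases (fr (bk side i) η).eq_empty_or_nonempty with he | ⟨v, hv⟩
    · rw [he, sum_empty, abs_zero]
      norm_num
    · have e5 : fr (bk side i) η = {v} := by
        refine (eq_of_subset_of_card_le (singleton_subset_iff.2 hv) ?_).symm
        rw [card_singleton]
        exact g4 i
      rw [e5, sum_singleton]
      have e6 : |η v| < 1 := (mem_filter.1 hv).2
      have e7 := hfull v
      calc |θ v - η v| ≤ |θ v| + |η v| := abs_sub _ _
        _ < 2 := by linarith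
  · have e1 : ∑ v, (b q v + sc side w (c q) v) * (θ v - ξ v) =
        ∑ v, (b q v + sc side w (c q) v) * (θ v - η v) +
        ∑ v, (b q v + sc side w (c q) v) * (η v - ζ v) + ∑ v, b q v * (ζ v - ξ v) +
        ∑ v, sc side w (c q) v * (ζ v - ξ v) := by
      rw [← sum_add_distrib, ← sum_add_distrib, ← sum_add_distrib]
      exact sum_congr rfl fun v _ => by ring
    have e2 : ∑ v, sc side w (c q) v * (ζ v - ξ v) = 0 := by
      rw [← sum_fiberwise (s := (univ : Finset V)) (g := side)]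
      refine sum_eq_zero fun i _ => ?_
      have e3 : ∑ v ∈ univ.filter (fun v => side v = i), sc side w (c q) v * (ζ v - ξ v) =
          ∑ k, c q k i * ∑ v ∈ univ.filter (fun v => side v = i), (ζ v - ξ v) * w k v := by
        simp_rw [mul_sum]
        rw [sum_comm]
        refine sum_congr rfl fun v hv => ?_
        rw [sc, sum_mul]
        refine sum_congr rfl fun k _ => ?_
        rw [(mem_filter.1 hv).2]
        ring
      rw [e3]
      refine sum_eq_zero fun k _ => ?_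
      have e4 := hfun i k.succ
      rw [hw1s] at e4
      rw [e4, mul_zero]
    rw [e1, e2, add_zero]
    have k1 := f6 q
    have k2 := g6 q
    have k3 := h5 q
    set B := nm (b q) with hB
    set Sg := Real.sqrt (∑ i, sw W (c q) i ^ 2) with hSg
    have hB0 : 0 ≤ B := nm_nonneg _
    have hSg0 : 0 ≤ Sg := Real.sqrt_nonneg _
    set X := Real.sqrt (32 * (m + 1) * Λ) with hX
    set Y := Real.sqrt (32 * Λ) with hY
    have hX0 : 0 ≤ X := Real.sqrt_nonneg _
    have hY0 : 0 ≤ Y := Real.sqrt_nonneg _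
    have m1 : Real.sqrt (8 * ((m + 1 : ℕ) : ℝ) * Λ) ≤ X := by
      refine Real.sqrt_le_sqrt ?_
      push_cast
      have : 0 ≤ ((m : ℝ) + 1) * Λ := by positivity
      linarith
    have m2 : Real.sqrt (8 * ((1 : ℕ) : ℝ) * Λ) ≤ X := by
      refine Real.sqrt_le_sqrt ?_
      push_cast
      nlinarith [mul_nonneg hSpm hΛ]
    have m3 : Real.sqrt (8 * ((1 : ℕ) : ℝ) * Λ) ≤ Y := by
      refine Real.sqrt_le_sqrt ?_
      push_cast
      linarith
    have m4 : Real.sqrt (8 * ((4 * (m + 1) : ℕ) : ℝ) * Λ) = X := by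
      rw [hX]
      congr 1
      push_cast
      ring
    have m5 : Real.sqrt ((m + 1 : ℕ) : ℝ) * (Real.sqrt (8 * ((m + 1 : ℕ) : ℝ) * Λ) + 1) ≤
        (m + 1) * (Y + 1) := by
      have n1 : Real.sqrt (8 * ((m + 1 : ℕ) : ℝ) * Λ) =
          Real.sqrt ((m + 1 : ℕ) : ℝ) * Real.sqrt (8 * Λ) := by
        rw [← Real.sqrt_mul (Nat.cast_nonneg _)]
        congr 1
        ring
      have n2 : Real.sqrt ((m + 1 : ℕ) : ℝ) * Real.sqrt ((m + 1 : ℕ) : ℝ) = m + 1 := by
        rw [Real.mul_self_sqrt (Nat.cast_nonneg _)]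
        push_cast
        ring
      have n3 : Real.sqrt ((m + 1 : ℕ) : ℝ) ≤ m + 1 := by
        rw [Real.sqrt_le_left (by positivity)]
        push_cast
        nlinarith
      have n4 : Real.sqrt (8 * Λ) ≤ Y := Real.sqrt_le_sqrt (by linarith)
      calc Real.sqrt ((m + 1 : ℕ) : ℝ) * (Real.sqrt (8 * ((m + 1 : ℕ) : ℝ) * Λ) + 1) =
          (Real.sqrt ((m + 1 : ℕ) : ℝ) * Real.sqrt ((m + 1 : ℕ) : ℝ)) * Real.sqrt (8 * Λ) +
            Real.sqrt ((m + 1 : ℕ) : ℝ) := by rw [n1]; ring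
        _ ≤ (m + 1) * Y + (m + 1) := by
            rw [n2]
            exact add_le_add (mul_le_mul_of_nonneg_left n4 (by positivity)) n3
        _ = _ := by ring
    have r1 : (B + Real.sqrt ((1 : ℕ) : ℝ) * Sg) * (Real.sqrt (8 * ((1 : ℕ) : ℝ) * Λ) + 1) ≤
        (X + 1) * B + (Y + 1) * Sg := by
      rw [Nat.cast_one, Real.sqrt_one, one_mul]
      rw [Nat.cast_one] at m2 m3
      nlinarith [mul_le_mul_of_nonneg_left m2 hB0, mul_le_mul_of_nonneg_left m3 hSg0]
    have r2 : (B + Real.sqrt ((m + 1 : ℕ) : ℝ) * Sg) *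
        (Real.sqrt (8 * ((m + 1 : ℕ) : ℝ) * Λ) + 1) ≤ (X + 1) * B + (m + 1) * (Y + 1) * Sg := by
      have q1 := mul_le_mul_of_nonneg_left m1 hB0
      have q2 := mul_le_mul_of_nonneg_right m5 hSg0
      nlinarith
    have r3 : (Y + 1) * Sg ≤ (m + 1) * (Y + 1) * Sg := by
      have : 0 ≤ (m : ℝ) * ((Y + 1) * Sg) := by positivity
      nlinarith
    rw [m4] at k3
    have q0 : (Real.sqrt (∑ v, b q v ^ 2)) = B := rfl
    rw [q0]
    refine (abs_add_le _ _).trans ((add_le_add ((abs_add_le _ _).trans (add_le_add k1 k2)) k3).trans ?_)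
    nlinarith

end Pool.Agent.Work.MP_db9399_lab.helper61
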